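import Pool.Agent.MP_4cbd16_al.RC.G
import Pool.Agent.MP_4cbd16_al.RC.H
import Pool.Agent.MP_4cbd16_al.RC.U
import Pool.Agent.MP_4cbd16_al.RC.T
import Pool.Agent.MP_4cbd16_al.RC.L
import Pool.Agent.MP_4cbd16_al.RC.A
import Pool.Agent.MP_4cbd16_al.RC.Main

/-! The factorial subgroup growth rate of a right-angled Coxeter group. -/

namespace Pool.Agent.Results.MP_4cbd16_al.CoxeterGrowth

open Pool.Agent.MP_4cbd16_al.RC

theorem result {B W : Type} [Fintype B] [DecidableEq B] [Group W] (M : CoxeterMatrix B)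
    (cs : CoxeterSystem M W) (hM : ∀ i j, i ≠ j → M i j = 2 ∨ M i j = 0)
    (hinf : ∃ i j, M i j = 0) (γ : ℝ)
    (hγ : IsGreatest {x : ℝ | ∃ 𝒞 : Finset (Finset B),
      (∀ C ∈ 𝒞, ∀ i ∈ C, ∀ j ∈ C, M i j ≠ 0) ∧
      (∀ C ∈ 𝒞, ∀ D ∈ 𝒞, C ≠ D → ∀ i ∈ C, ∀ j ∈ D, M i j = 0) ∧
      x = ∑ C ∈ 𝒞, (1 - (1 / 2 : ℝ) ^ C.card)} γ) (ε : ℝ) (hε : 0 < ε) :
    ∀ᶠ n : ℕ in Filter.atTop,
      (n.factorial : ℝ) ^ (γ - 1 - ε) ≤ Nat.card {H : Subgroup W // H.index = n} ∧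
      {H : Subgroup W | H.index ≠ 0 ∧ H.index ≤ n}.Finite ∧
      (Nat.card {H : Subgroup W // H.index ≠ 0 ∧ H.index ≤ n} : ℝ) ≤
        (n.factorial : ℝ) ^ (γ - 1 + ε) :=
  main_of (row_H row_G) row_U (row_L row_T) row_A B W M cs hM hinf γ hγ ε hε

end Pool.Agent.Results.MP_4cbd16_al.CoxeterGrowth
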